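import Mathlib

/-!
# Core combinatorics for binary generalized pseudostandard words

`Sys u l x` : the prefixes of `u` of lengths `l k` are iterated pseudopalindromic closures, where
`x k = false` stands for the reversal `R` and `x k = true` for the exchange antimorphism `E`.
-/

namespace GPW

/-- The prefix of `u` of length `L` is a palindrome of type `x` (`false` = `R`, `true` = `E`). -/
def Pal (u : ℕ → Bool) (x : Bool) (L : ℕ) : Prop :=
  ∀ i j, i + j + 1 = L → u j = (u i ^^ x)

structure Sys (u : ℕ → Bool) (l : ℕ → ℕ) (x : ℕ → Bool) : Prop where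
  l0 : l 0 = 0
  lt : ∀ k, l k < l (k + 1)
  pal : ∀ k, Pal u (x k) (l k)
  x01 : x 0 = !(x 1)
  min : ∀ k T, l k + 1 ≤ T →
    (∀ i j, i ≤ l k → j ≤ l k → i + j + 1 = T → u j = (u i ^^ x (k + 1))) → l (k + 1) ≤ T

open Classical in
/-- Start (shifted by two) of the branch of class `(x, y)` at level `N`. -/
noncomputable def qh (u : ℕ → Bool) (N : ℕ) (x y : Bool) : ℕ :=
  max (if x then 0 else 1)
    (((Finset.range N).filter (fun q => Pal u x q ∧ (u q ^^ x) = y)).sup (fun q => q + 2))

/-- The (virtually extended) sequence of class `(x, y)`. -/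
def hat (u : ℕ → Bool) (x y : Bool) : ℕ → Bool
  | 0 => y
  | 1 => (y ^^ x)
  | (j + 2) => (u j ^^ x)

def seg (f : ℕ → Bool) (s i : ℕ) : List Bool := (List.range i).map (fun r => f (s + r))

def pref (f : ℕ → Bool) (s len : ℕ) : Finset (List Bool) :=
  (Finset.range len).image (fun i => seg f s (i + 1))

noncomputable def br (u : ℕ → Bool) (N : ℕ) (x y : Bool) : Finset (List Bool) :=
  pref (hat u x y) (qh u N x y) (N + 2 - qh u N x y)

section basic

variable {u : ℕ → Bool}

lemma qh_base (N : ℕ) (x y : Bool) : (if x then 0 else 1) ≤ qh u N x y := by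
  unfold qh; exact le_max_left _ _

lemma qh_ge {N q : ℕ} {x y : Bool} (hq : q < N) (hp : Pal u x q) (hy : (u q ^^ x) = y) :
    q + 2 ≤ qh u N x y := by
  classical
  unfold qh
  refine le_trans ?_ (le_max_right _ _)
  exact Finset.le_sup (f := fun q => q + 2)
    (Finset.mem_filter.2 ⟨Finset.mem_range.2 hq, hp, hy⟩)

lemma qh_cases (u : ℕ → Bool) (N : ℕ) (x y : Bool) :
    (qh u N x y = (if x then 0 else 1) ∧ ∀ q < N, ¬ (Pal u x q ∧ (u q ^^ x) = y)) ∨
    (∃ q < N, Pal u x q ∧ (u q ^^ x) = y ∧ qh u N x y = q + 2) := by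
  classical
  rcases Finset.eq_empty_or_nonempty
    ((Finset.range N).filter (fun q => Pal u x q ∧ (u q ^^ x) = y)) with he | hne
  · left
    constructor
    · unfold qh
      have : ((Finset.range N).filter (fun q => Pal u x q ∧ (u q ^^ x) = y)) = ∅ := by
        convert he
      rw [show (Finset.filter (fun q => Pal u x q ∧ (u q ^^ x) = y) (Finset.range N)) = ∅ from
        by convert he]
      simp
    · intro q hq h
      have : q ∈ ((Finset.range N).filter (fun q => Pal u x q ∧ (u q ^^ x) = y)) :=
        Finset.mem_filter.2 ⟨Finset.mem_range.2 hq, h⟩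
      rw [he] at this
      simp at this
  · right
    obtain ⟨q, hq, hs⟩ := Finset.exists_mem_eq_sup _ hne (fun q => q + 2)
    have hq' := Finset.mem_filter.1 hq
    refine ⟨q, Finset.mem_range.1 hq'.1, hq'.2.1, hq'.2.2, ?_⟩
    have h1 : qh u N x y = max (if x then 0 else 1) (q + 2) := by
      unfold qh
      rw [← hs]
    rw [h1]
    have : (if x then 0 else 1) ≤ q + 2 := by split <;> omega
    exact max_eq_right this

lemma qh_le {N : ℕ} (hN : 1 ≤ N) (x y : Bool) : qh u N x y ≤ N + 1 := by
  rcases qh_cases u N x y with ⟨h, _⟩ | ⟨q, hq, _, _, h⟩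
  · rw [h]; split <;> omega
  · omega

lemma qh_mono {N N' : ℕ} (h : N ≤ N') (x y : Bool) : qh u N x y ≤ qh u N' x y := by
  rcases qh_cases u N x y with ⟨h1, _⟩ | ⟨q, hq, hp, hy, h1⟩
  · rw [h1]; exact qh_base _ _ _
  · rw [h1]; exact qh_ge (by omega) hp hy

lemma qh_new {N N' : ℕ} (h : N ≤ N') (x y : Bool) (hne : qh u N' x y ≠ qh u N x y) :
    N + 2 ≤ qh u N' x y := by
  have hm := qh_mono (u := u) h x y
  rcases qh_cases u N' x y with ⟨h1, _⟩ | ⟨q, hq, hp, hy, h1⟩
  · have := qh_base (u := u) N x y
    omega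
  · by_contra hcon
    have hqN : q < N := by omega
    have := qh_ge (u := u) hqN hp hy
    omega

lemma qh_eq_of_no_new {N N' : ℕ} (h : N ≤ N') (x y : Bool)
    (hno : ∀ q, N ≤ q → q < N' → ¬ (Pal u x q ∧ (u q ^^ x) = y)) :
    qh u N' x y = qh u N x y := by
  have hm := qh_mono (u := u) h x y
  rcases qh_cases u N' x y with ⟨h1, _⟩ | ⟨q, hq, hp, hy, h1⟩
  · have := qh_base (u := u) N x y
    omega
  · by_cases hqN : q < N
    · have := qh_ge (u := u) hqN hp hy
      omega
    · exact absurd ⟨hp, hy⟩ (hno q (by omega) hq)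

lemma hat_qh (N : ℕ) (x y : Bool) : hat u x y (qh u N x y) = y := by
  rcases qh_cases u N x y with ⟨h1, _⟩ | ⟨q, hq, hp, hy, h1⟩
  · rw [h1]; cases x <;> simp [hat]
  · rw [h1]; simpa [hat] using hy

lemma pal_zero (x : Bool) : Pal u x 0 := by
  intro i j h; omega

lemma pal_true_even {L : ℕ} (h : Pal u true L) : L % 2 = 0 := by
  by_contra hcon
  have : L / 2 + L / 2 + 1 = L := by omega
  have := h _ _ this
  simp at this

lemma card_pref_le (f : ℕ → Bool) (s len : ℕ) : (pref f s len).card ≤ len := by
  unfold pref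
  exact Finset.card_image_le.trans (by simp)

lemma mem_pref {f : ℕ → Bool} {s len i : ℕ} (h1 : 1 ≤ i) (h : i ≤ len) :
    seg f s i ∈ pref f s len := by
  unfold pref
  refine Finset.mem_image.2 ⟨i - 1, Finset.mem_range.2 (by omega), ?_⟩
  congr 1
  omega

lemma seg_congr {f g : ℕ → Bool} {s s' i : ℕ} (h : ∀ r < i, f (s + r) = g (s' + r)) :
    seg f s i = seg g s' i := by
  unfold seg
  apply List.map_congr_left
  intro r hr
  exact h r (List.mem_range.1 hr)

lemma pref_subset {f g : ℕ → Bool} {s s' len len' : ℕ} (hlen : len ≤ len')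
    (h : ∀ r < len, f (s + r) = g (s' + r)) : pref f s len ⊆ pref g s' len' := by
  intro t ht
  unfold pref at ht
  obtain ⟨i, hi, rfl⟩ := Finset.mem_image.1 ht
  have hi' := Finset.mem_range.1 hi
  rw [seg_congr (g := g) (s' := s') (fun r hr => h r (by omega))]
  exact mem_pref (by omega) (by omega)

lemma card_br_le (N : ℕ) (x y : Bool) : (br u N x y).card ≤ N + 2 - qh u N x y :=
  card_pref_le _ _ _

lemma single_mem_br {N : ℕ} (hN : 1 ≤ N) (x y : Bool) : [y] ∈ br u N x y := by
  have h := qh_le (u := u) hN x y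
  have h1 : seg (hat u x y) (qh u N x y) 1 = [y] := by
    simp [seg, hat_qh]
  rw [← h1]
  exact mem_pref le_rfl (by omega)

lemma br_ext {N N' : ℕ} (h : N ≤ N') (x y : Bool) :
    ∃ E : Finset (List Bool), E.card ≤ N' - N ∧ br u N' x y ⊆ br u N x y ∪ E := by
  classical
  by_cases hq : qh u N' x y = qh u N x y
  · refine ⟨(Finset.Ico (N + 2 - qh u N x y) (N' + 2 - qh u N x y)).image
      (fun i => seg (hat u x y) (qh u N x y) (i + 1)), ?_, ?_⟩
    · refine Finset.card_image_le.trans ?_
      rw [Nat.card_Ico]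
      omega
    · intro t ht
      unfold br at ht
      rw [hq] at ht
      unfold pref at ht
      obtain ⟨i, hi, rfl⟩ := Finset.mem_image.1 ht
      have hi' := Finset.mem_range.1 hi
      rw [Finset.mem_union]
      by_cases hc : i < N + 2 - qh u N x y
      · left
        exact mem_pref (by omega) (by omega)
      · right
        exact Finset.mem_image.2 ⟨i, Finset.mem_Ico.2 ⟨by omega, hi'⟩, rfl⟩
  · refine ⟨br u N' x y, ?_, Finset.subset_union_right⟩
    have h1 := qh_new (u := u) h x y hq
    have h2 := card_br_le (u := u) N' x y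
    omega

end basic

section sys

variable {u : ℕ → Bool} {l : ℕ → ℕ} {x : ℕ → Bool}

lemma Sys.p2 (h : Sys u l x) {k L : ℕ} (h1 : l k < L) (h2 : Pal u (x (k + 1)) L) :
    l (k + 1) ≤ L :=
  h.min k L h1 (fun i j _ _ hij => h2 i j hij)

lemma Sys.m (h : Sys u l x) {k q : ℕ} (hq : q < l k) (hp : Pal u (x (k + 1)) q)
    (hy : (u q ^^ x (k + 1)) = (u (l k) ^^ x k)) : l (k + 1) + q ≤ 2 * l k := by
  have := h.min k (2 * l k - q) (by omega) ?_
  · omega
  · intro i j hi hj hij
    rcases Nat.lt_or_ge i (l k) with hi' | hi'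
    · rcases Nat.lt_or_ge j (l k) with hj' | hj'
      · have e1 := h.pal k (l k - 1 - i) i (by omega)
        have e2 := h.pal k (l k - 1 - j) j (by omega)
        have e3 := hp (l k - 1 - i) (l k - 1 - j) (by omega)
        rw [e1, e2, e3]
        cases u (l k - 1 - i) <;> cases x k <;> cases x (k + 1) <;> rfl
      · have hj2 : j = l k := by omega
        have e1 := h.pal k q i (by omega)
        rw [hj2, e1]
        revert hy
        cases u q <;> cases u (l k) <;> cases x k <;> cases x (k + 1) <;> simp
    · have hi2 : i = l k := by omega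
      have e1 := h.pal k q j (by omega)
      rw [hi2, e1]
      revert hy
      cases u q <;> cases u (l k) <;> cases x k <;> cases x (k + 1) <;> simp

lemma Sys.mR (h : Sys u l x) {k : ℕ} (hx : x (k + 1) = false) : l (k + 1) ≤ 2 * l k + 1 := by
  refine h.min k _ (by omega) ?_
  intro i j hi hj hij
  have h1 : i = l k := by omega
  have h2 : j = l k := by omega
  rw [h1, h2, hx]; simp

lemma Sys.mE (h : Sys u l x) (k : ℕ) : l (k + 1) ≤ 2 * l k + 2 := by
  refine h.min k _ (by omega) ?_
  intro i j hi hj hij
  omega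

/-- Right copy of `w_k` inside `w_{k+1}`. -/
lemma Sys.copy (h : Sys u l x) {k s : ℕ} (hs : s < l k) :
    u (l (k + 1) - l k + s) = (u s ^^ (x k ^^ x (k + 1))) := by
  have hl := h.lt k
  have e1 := h.pal (k + 1) (l k - 1 - s) (l (k + 1) - l k + s) (by omega)
  have e2 := h.pal k s (l k - 1 - s) (by omega)
  rw [e1, e2]
  cases u s <;> cases x k <;> cases x (k + 1) <;> rfl

lemma Sys.stage_qh (h : Sys u l x) (k : ℕ) :
    qh u (l k) (x (k + 1)) (u (l k) ^^ x k) + l (k + 1) = 2 * l k + 2 := by
  have hl := h.lt k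
  have hE := h.mE k
  rcases Nat.lt_or_ge (2 * l k) (l (k + 1)) with hc | hc
  · -- no palindrome of the class
    have hbase : qh u (l k) (x (k + 1)) (u (l k) ^^ x k) = (if x (k + 1) then 0 else 1) := by
      rcases qh_cases u (l k) (x (k + 1)) (u (l k) ^^ x k) with ⟨h1, _⟩ | ⟨q, hq, hp, hy, h1⟩
      · exact h1
      · have := h.m hq hp hy
        omega
    rw [hbase]
    rcases hx : x (k + 1) with _ | _
    · have := h.mR hx
      simp
      omega
    · have h1 := h.pal (k + 1)
      rw [hx] at h1
      have h2 := pal_true_even h1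
      simp
      omega
  · -- q = 2 l k - l (k+1) is in the class
    have hpal : Pal u (x (k + 1)) (2 * l k - l (k + 1)) := by
      intro i j hij
      have e1 := h.copy (k := k) (s := j) (by omega)
      have e2 := h.pal k i (l k - 1 - i) (by omega)
      have e3 : l (k + 1) - l k + j = l k - 1 - i := by omega
      rw [e3, e2] at e1
      revert e1
      cases u i <;> cases u j <;> cases x k <;> cases x (k + 1) <;> simp
    have hlet : (u (2 * l k - l (k + 1)) ^^ x (k + 1)) = (u (l k) ^^ x k) := by
      have e1 := h.copy (k := k) (s := 2 * l k - l (k + 1)) (by omega)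
      have e3 : l (k + 1) - l k + (2 * l k - l (k + 1)) = l k := by omega
      rw [e3] at e1
      rw [e1]
      cases u (2 * l k - l (k + 1)) <;> cases x k <;> cases x (k + 1) <;> rfl
    have h1 := qh_ge (u := u) (N := l k) (q := 2 * l k - l (k + 1)) (by omega) hpal hlet
    rcases qh_cases u (l k) (x (k + 1)) (u (l k) ^^ x k) with ⟨h2, h3⟩ | ⟨q, hq, hp, hy, h2⟩
    · exact absurd ⟨hpal, hlet⟩ (h3 _ (by omega))
    · have := h.m hq hp hy
      omega

lemma Sys.stage_hat (h : Sys u l x) (k r : ℕ) (hr : r < l (k + 1) - l k) :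
    (u (l k + r) ^^ x k) =
      hat u (x (k + 1)) (u (l k) ^^ x k) (qh u (l k) (x (k + 1)) (u (l k) ^^ x k) + r) := by
  have hq := h.stage_qh k
  have hl := h.lt k
  generalize hQ : qh u (l k) (x (k + 1)) (u (l k) ^^ x k) = Q at *
  rcases Nat.lt_or_ge (Q + r) 2 with hc | hc
  · rcases r with _ | r
    · have := hat_qh (u := u) (l k) (x (k + 1)) (u (l k) ^^ x k)
      rw [hQ] at this
      simp only [Nat.add_zero]
      exact this.symm
    · have hQ0 : Q = 0 := by omega
      have hr0 : r = 0 := by omega
      subst hQ0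
      subst hr0
      -- then x (k+1) = true
      have hx : x (k + 1) = true := by
        by_contra hx
        have hx' : x (k + 1) = false := by simpa using hx
        have := h.mR hx'
        omega
      have e1 := h.pal (k + 1) (l k) (l k + 1) (by omega)
      simp only [hat, hx] at *
      rw [e1]
      cases u (l k) <;> cases x k <;> rfl
  · obtain ⟨s, hs⟩ : ∃ s, Q + r = s + 2 := ⟨Q + r - 2, by omega⟩
    have e1 := h.copy (k := k) (s := s) (by omega)
    have e2 : l (k + 1) - l k + s = l k + r := by omega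
    rw [e2] at e1
    rw [hs, e1]
    simp only [hat]
    cases u s <;> cases x k <;> cases x (k + 1) <;> rfl

/-- The class of `w_k` at levels in `(l k, l (k+1)]` starts exactly at `w_k`. -/
lemma Sys.special (h : Sys u l x) {k N : ℕ} (h1 : l k < N) (h2 : N ≤ l (k + 1)) :
    qh u N (x k) (u (l k) ^^ x k) = l k + 2 := by
  have hge := qh_ge (u := u) h1 (h.pal k) rfl
  rcases qh_cases u N (x k) (u (l k) ^^ x k) with ⟨h3, _⟩ | ⟨M, hM, hp, hy, h3⟩
  · rw [h3]
    rw [h3] at hge
    split at hge <;> omega
  · rcases Nat.lt_or_ge (l k) M with hc | hc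
    · exfalso
      have huM : u M = u (l k) := by
        revert hy
        cases u M <;> cases u (l k) <;> cases x k <;> simp
      by_cases hx : x (k + 1) = x k
      · rw [← hx] at hp
        have := h.p2 hc hp
        omega
      · have hx' : x (k + 1) = !(x k) := by
          revert hx
          cases x (k + 1) <;> cases x k <;> simp
        have hE := h.mE k
        -- o = 2 M - l (k+1)
        have hpo : Pal u (x (k + 1)) (2 * M - l (k + 1)) := by
          intro i j hij
          have e1 := hp (M - 1 - j) j (by omega)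
          have e2 := h.pal (k + 1) (M - 1 - i) (M - 1 - j) (by omega)
          have e3 := hp i (M - 1 - i) (by omega)
          rw [e1, e2, e3]
          cases u i <;> cases x k <;> cases x (k + 1) <;> rfl
        have hlo : u (2 * M - l (k + 1)) = !(u M) := by
          have e1 := hp (l (k + 1) - M - 1) (2 * M - l (k + 1)) (by omega)
          have e2 := h.pal (k + 1) M (l (k + 1) - M - 1) (by omega)
          rw [e1, e2, hx']
          cases u M <;> cases x k <;> rfl
        rcases Nat.lt_trichotomy (2 * M - l (k + 1)) (l k) with hlt | heq | hgt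
        · have := h.m hlt hpo (by
            rw [hlo, huM, hx']
            cases u (l k) <;> cases x k <;> rfl)
          omega
        · rw [heq, huM] at hlo
          revert hlo
          cases u (l k) <;> simp
        · have := h.p2 hgt hpo
          omega
    · have : M = l k := by
        have := hge
        omega
      omega

end sys

end GPW
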