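import Pool.Agent.GPW.Core

namespace GPW

variable {u : ℕ → Bool} {l : ℕ → ℕ} {x : ℕ → Bool}

/-- The stage word of stage `k → k+1`. -/
def tailP (u : ℕ → Bool) (l : ℕ → ℕ) (x : ℕ → Bool) (k : ℕ) : Finset (List Bool) :=
  pref (fun r => (u (l k + r) ^^ x k)) 0 (l (k + 1) - l k)

noncomputable def node (u : ℕ → Bool) (N : ℕ) : Finset (List Bool) :=
  (br u N false false ∪ br u N false true) ∪ (br u N true false ∪ br u N true true)

lemma br_subset_node (N : ℕ) (a b : Bool) : br u N a b ⊆ node u N := by
  intro t ht
  unfold node
  simp only [Finset.mem_union]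
  cases a <;> cases b <;> simp [ht]

lemma node_subset {N : ℕ} {S : Finset (List Bool)} (h : ∀ a b, br u N a b ⊆ S) :
    node u N ⊆ S := by
  unfold node
  exact Finset.union_subset (Finset.union_subset (h _ _) (h _ _))
    (Finset.union_subset (h _ _) (h _ _))

/-- enumerate classes relative to a given one -/
lemma node_subset' {N : ℕ} {S : Finset (List Bool)} (a b : Bool)
    (h1 : br u N a b ⊆ S) (h2 : br u N (!a) b ⊆ S) (h3 : br u N a (!b) ⊆ S)
    (h4 : br u N (!a) (!b) ⊆ S) : node u N ⊆ S := by
  apply node_subset
  intro a' b'
  cases a <;> cases b <;> cases a' <;> cases b' <;> simp_all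

noncomputable def US (u : ℕ → Bool) (l : ℕ → ℕ) (x : ℕ → Bool) (k N : ℕ) : Finset (List Bool) :=
  tailP u l x k ∪ node u N

lemma Sys.tailP_eq (h : Sys u l x) (k : ℕ) :
    tailP u l x k = br u (l k) (x (k + 1)) (u (l k) ^^ x k) := by
  have hq := h.stage_qh k
  have hl := h.lt k
  unfold tailP br
  have hlen : l (k + 1) - l k = l k + 2 - qh u (l k) (x (k + 1)) (u (l k) ^^ x k) := by omega
  apply Finset.Subset.antisymm
  · apply pref_subset (by omega)
    intro r hr
    simp only [Nat.zero_add]
    exact h.stage_hat k r hr
  · apply pref_subset (by omega)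
    intro r hr
    simp only [Nat.zero_add]
    exact (h.stage_hat k r (by omega)).symm

lemma Sys.br_special (h : Sys u l x) {k N : ℕ} (h1 : l k < N) (h2 : N ≤ l (k + 1)) :
    br u N (x k) (u (l k) ^^ x k) ⊆ tailP u l x k := by
  unfold tailP br
  rw [h.special h1 h2]
  apply pref_subset (by omega)
  intro r hr
  rw [show l k + 2 + r = (l k + r) + 2 by omega]
  simp [hat]

lemma qh_two (u : ℕ → Bool) {N : ℕ} (hN : 1 ≤ N) (b : Bool) :
    2 ≤ qh u N b (u 0 ^^ b) := by
  have := qh_ge (u := u) (N := N) (q := 0) (by omega) (pal_zero b) rfl
  omega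

lemma qh_one (u : ℕ → Bool) (N : ℕ) (y : Bool) : 1 ≤ qh u N false y := by
  have := qh_base (u := u) N false y
  simpa using this

lemma qh_sum (u : ℕ → Bool) {N : ℕ} (hN : 1 ≤ N) (b y : Bool) :
    3 ≤ qh u N b y + qh u N false (!y) + qh u N true (!y) := by
  have h1 := qh_two u hN false
  have h2 := qh_two u hN true
  have h3 := qh_one u N y
  have h4 := qh_one u N (!y)
  cases b <;> cases y <;> cases hu : u 0 <;> simp [hu] at * <;> omega

lemma card_two_br (u : ℕ → Bool) {N : ℕ} (hN : 1 ≤ N) (y : Bool) :
    (br u N false y ∪ br u N true y).card + 1 ≤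
      (N + 2 - qh u N false y) + (N + 2 - qh u N true y) := by
  have h1 := card_br_le (u := u) N false y
  have h2 := card_br_le (u := u) N true y
  have h3 := Finset.card_union_add_card_inter (br u N false y) (br u N true y)
  have h4 : 1 ≤ (br u N false y ∩ br u N true y).card := by
    apply Finset.card_pos.2
    exact ⟨[y], Finset.mem_inter.2 ⟨single_mem_br hN _ _, single_mem_br hN _ _⟩⟩
  omega

/-- Main counting step. -/
lemma Sys.card_US_aux (h : Sys u l x) (k : ℕ)
    (ih : 1 ≤ l k → (node u (l k)).card ≤ 3 * l k + 2) {N : ℕ} (h1 : l k ≤ N)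
    (h2 : N ≤ l (k + 1)) (hN : 1 ≤ N) : (US u l x k N).card ≤ 3 * N + 2 := by
  classical
  rcases Nat.eq_or_lt_of_le h1 with heq | hlt
  · subst heq
    have : US u l x k (l k) ⊆ node u (l k) := by
      unfold US
      rw [h.tailP_eq]
      exact Finset.union_subset (br_subset_node _ _ _) (Finset.Subset.refl _)
    exact (Finset.card_le_card this).trans (ih hN)
  · by_cases hx : x (k + 1) = x k
    · -- same type
      have hk : k ≠ 0 := by
        rintro rfl
        have := h.x01
        rw [this] at hx
        simp at hx
      have hlk : 1 ≤ l k := by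
        obtain ⟨k', rfl⟩ := Nat.exists_eq_succ_of_ne_zero hk
        have := h.lt k'
        simp only [Nat.succ_eq_add_one]
        omega
      obtain ⟨E1, hE1, hs1⟩ := br_ext (u := u) h1 (!(x k)) (u (l k) ^^ x k)
      obtain ⟨E2, hE2, hs2⟩ := br_ext (u := u) h1 (x k) (!(u (l k) ^^ x k))
      obtain ⟨E3, hE3, hs3⟩ := br_ext (u := u) h1 (!(x k)) (!(u (l k) ^^ x k))
      have htail : tailP u l x k ⊆ node u (l k) := by
        rw [h.tailP_eq]; exact br_subset_node _ _ _
      have hsub : US u l x k N ⊆ node u (l k) ∪ (E1 ∪ (E2 ∪ E3)) := by
        unfold US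
        apply Finset.union_subset (htail.trans Finset.subset_union_left)
        apply node_subset' (x k) (u (l k) ^^ x k)
        · exact ((h.br_special hlt h2).trans htail).trans Finset.subset_union_left
        · refine hs1.trans (Finset.union_subset_union (br_subset_node _ _ _) ?_)
          exact Finset.subset_union_left
        · refine hs2.trans (Finset.union_subset_union (br_subset_node _ _ _) ?_)
          exact Finset.subset_union_left.trans Finset.subset_union_right
        · refine hs3.trans (Finset.union_subset_union (br_subset_node _ _ _) ?_)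
          exact Finset.subset_union_right.trans Finset.subset_union_right
      have hc := Finset.card_le_card hsub
      have hc1 := Finset.card_union_le (node u (l k)) (E1 ∪ (E2 ∪ E3))
      have hc2 := Finset.card_union_le E1 (E2 ∪ E3)
      have hc3 := Finset.card_union_le E2 E3
      have := ih hlk
      omega
    · -- different type
      have hx' : x (k + 1) = !(x k) := by
        revert hx
        cases x (k + 1) <;> cases x k <;> simp
      have hqeq : qh u N (x (k + 1)) (u (l k) ^^ x k) = qh u (l k) (x (k + 1)) (u (l k) ^^ x k) := by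
        apply qh_eq_of_no_new h1
        rintro q hq hqN ⟨hp, hy⟩
        rcases Nat.eq_or_lt_of_le hq with he | hlt'
        · subst he
          revert hy
          rw [hx']
          cases u (l k) <;> cases x k <;> simp
        · have := h.p2 hlt' hp
          omega
      have htail : tailP u l x k ⊆ br u N (x (k + 1)) (u (l k) ^^ x k) := by
        rw [h.tailP_eq]
        unfold br
        rw [hqeq]
        exact pref_subset (by omega) (fun r _ => rfl)
      have hsub : US u l x k N ⊆ br u N (x (k + 1)) (u (l k) ^^ x k) ∪
          (br u N false (!(u (l k) ^^ x k)) ∪ br u N true (!(u (l k) ^^ x k))) := by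
        unfold US
        apply Finset.union_subset (htail.trans Finset.subset_union_left)
        apply node_subset' (x k) (u (l k) ^^ x k)
        · exact ((h.br_special hlt h2).trans htail).trans Finset.subset_union_left
        · rw [← hx']; exact Finset.subset_union_left
        · refine Finset.Subset.trans ?_ Finset.subset_union_right
          cases x k
          · exact Finset.subset_union_left
          · exact Finset.subset_union_right
        · refine Finset.Subset.trans ?_ Finset.subset_union_right
          cases x k
          · exact Finset.subset_union_right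
          · exact Finset.subset_union_left
      have hc := Finset.card_le_card hsub
      have hc1 := Finset.card_union_le (br u N (x (k + 1)) (u (l k) ^^ x k))
        (br u N false (!(u (l k) ^^ x k)) ∪ br u N true (!(u (l k) ^^ x k)))
      have hc2 := card_two_br u hN (!(u (l k) ^^ x k))
      have hc3 := card_br_le (u := u) N (x (k + 1)) (u (l k) ^^ x k)
      have hs := qh_sum u hN (x (k + 1)) (u (l k) ^^ x k)
      have q1 := qh_le (u := u) hN (x (k + 1)) (u (l k) ^^ x k)
      have q2 := qh_le (u := u) hN false (!(u (l k) ^^ x k))
      have q3 := qh_le (u := u) hN true (!(u (l k) ^^ x k))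
      omega

lemma Sys.card_node (h : Sys u l x) (k : ℕ) :
    1 ≤ l k → (node u (l k)).card ≤ 3 * l k + 2 := by
  induction k with
  | zero => intro h0; rw [h.l0] at h0; omega
  | succ k ih =>
    intro _
    have hl := h.lt k
    have := h.card_US_aux k ih (N := l (k + 1)) (by omega) le_rfl (by omega)
    refine le_trans (Finset.card_le_card ?_) this
    exact Finset.subset_union_right

lemma Sys.card_US (h : Sys u l x) (k : ℕ) {N : ℕ} (h1 : l k ≤ N)
    (h2 : N ≤ l (k + 1)) (hN : 1 ≤ N) : (US u l x k N).card ≤ 3 * N + 2 :=
  h.card_US_aux k (h.card_node k) h1 h2 hN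

/-! ### Windows -/

def win (u : ℕ → Bool) (n a : ℕ) : List Bool := (List.range n).map (fun r => u (a + r))

def cmp (g : Bool) (w : List Bool) : List Bool := w.map (fun b => (b ^^ g))

def fw (u : ℕ → Bool) (n : ℕ) (t : List Bool) : List Bool := (t.reverse ++ win u n 0).take n

lemma length_win (n a : ℕ) : (win u n a).length = n := by simp [win]

lemma Sys.exists_stage (h : Sys u l x) {m : ℕ} (hm : 1 ≤ m) : ∃ j, l j < m ∧ m ≤ l (j + 1) := by
  have hmono : StrictMono l := strictMono_nat_of_lt_succ h.lt
  have hid : ∀ j, j ≤ l j := fun j => hmono.le_apply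
  have hex : ∃ j, m ≤ l j := ⟨m, hid m⟩
  classical
  have h0 : Nat.find hex ≠ 0 := by
    intro h0
    have := Nat.find_spec hex
    rw [h0, h.l0] at this
    omega
  obtain ⟨j, hj⟩ := Nat.exists_eq_succ_of_ne_zero h0
  refine ⟨j, ?_, ?_⟩
  · have := Nat.find_min hex (m := j) (by omega)
    omega
  · have := Nat.find_spec hex
    rw [hj] at this
    exact this

lemma Sys.window_form (h : Sys u l x) {j n a : ℕ} (h2 : a + n ≤ l (j + 1))
    (ha : a < l (j + 1) - l j) :
    cmp (x j ^^ x (j + 1)) (win u n a) =
      fw u n (seg (fun r => (u (l j + r) ^^ x j)) 0 (l (j + 1) - l j - a)) := by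
  have hl := h.lt j
  apply List.ext_getElem
  · simp [cmp, fw, length_win]
  · intro r hr1 hr2
    have hrn : r < n := by simpa [cmp, length_win] using hr1
    have hL : (cmp (x j ^^ x (j + 1)) (win u n a))[r] = (u (a + r) ^^ (x j ^^ x (j + 1))) := by
      simp [cmp, win]
    rw [hL]
    simp only [fw, List.getElem_take]
    rcases Nat.lt_or_ge r (l (j + 1) - l j - a) with hc | hc
    · rw [List.getElem_append_left (by simpa [seg] using hc)]
      rw [List.getElem_reverse]
      simp only [seg, List.getElem_map, List.getElem_range, List.length_map, List.length_range]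
      have e1 := h.pal (j + 1) (a + r) (l j + (l (j + 1) - l j - a - 1 - r)) (by omega)
      simp only [Nat.zero_add]
      rw [e1]
      cases u (a + r) <;> cases x j <;> cases x (j + 1) <;> rfl
    · rw [List.getElem_append_right (by simpa [seg] using hc)]
      simp only [win, seg, List.getElem_map, List.getElem_range, List.length_map,
        List.length_range, List.length_reverse, Nat.zero_add]
      have e1 := h.copy (k := j) (s := r - (l (j + 1) - l j - a)) (by omega)
      have e2 : l (j + 1) - l j + (r - (l (j + 1) - l j - a)) = a + r := by omega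
      rw [e2] at e1
      rw [e1]
      cases u (r - (l (j + 1) - l j - a)) <;> cases x j <;> cases x (j + 1) <;> rfl

lemma cmp_cmp (g g' : Bool) (w : List Bool) : cmp g (cmp g' w) = cmp (g ^^ g') w := by
  unfold cmp
  rw [List.map_map]
  apply List.map_congr_left
  intro b _
  cases b <;> cases g <;> cases g' <;> rfl

lemma Sys.window (h : Sys u l x) {k n : ℕ} (hk1 : l k < n) (hk2 : n ≤ l (k + 1)) :
    ∀ a, ∃ t ∈ US u l x k (n - 1), ∃ g, cmp g (win u n a) = fw u n t := by
  have hmono : StrictMono l := strictMono_nat_of_lt_succ h.lt
  intro a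
  induction a using Nat.strong_induction_on with
  | _ a ih =>
    obtain ⟨j, hj1, hj2⟩ := h.exists_stage (m := a + n) (by omega)
    have hkj : k ≤ j := by
      by_contra hcon
      have : l (j + 1) ≤ l k := hmono.monotone (by omega)
      omega
    have hl := h.lt j
    rcases Nat.lt_or_ge a (l (j + 1) - l j) with ha | ha
    · have hform := h.window_form hj2 ha
      refine ⟨_, ?_, _, hform⟩
      unfold US
      rw [Finset.mem_union]
      rcases Nat.eq_or_lt_of_le hkj with he | hlt
      · left
        subst he
        unfold tailP
        exact mem_pref (by omega) (by omega)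
      · right
        have hlj : n ≤ l j := by
          have : l (k + 1) ≤ l j := hmono.monotone hlt
          omega
        have hq := h.stage_qh j
        have hqeq : qh u (l j) (x (j + 1)) (u (l j) ^^ x j) =
            qh u (n - 1) (x (j + 1)) (u (l j) ^^ x j) := by
          by_contra hne
          have := qh_new (u := u) (N := n - 1) (N' := l j) (by omega) _ _ hne
          omega
        apply br_subset_node (n - 1) (x (j + 1)) (u (l j) ^^ x j)
        unfold br
        rw [← hqeq]
        rw [seg_congr (g := hat u (x (j + 1)) (u (l j) ^^ x j))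
          (s' := qh u (l j) (x (j + 1)) (u (l j) ^^ x j))]
        · exact mem_pref (by omega) (by omega)
        · intro r hr
          simp only [Nat.zero_add]
          exact h.stage_hat j r (by omega)
    · -- the window lies in the right copy
      have hlj : l (j + 1) - l j ≥ 1 := by omega
      obtain ⟨t, ht, g, hg⟩ := ih (a - (l (j + 1) - l j)) (by omega)
      refine ⟨t, ht, g ^^ (x j ^^ x (j + 1)), ?_⟩
      rw [← hg, ← cmp_cmp]
      congr 1
      unfold cmp win
      rw [List.map_map]
      apply List.map_congr_left
      intro r hr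
      have hr' := List.mem_range.1 hr
      have e1 := h.copy (k := j) (s := a - (l (j + 1) - l j) + r) (by omega)
      have e2 : l (j + 1) - l j + (a - (l (j + 1) - l j) + r) = a + r := by omega
      rw [e2] at e1
      simp only [Function.comp]
      rw [e1]
      cases u (a - (l (j + 1) - l j) + r) <;> cases x j <;> cases x (j + 1) <;> rfl

/-- The set of factors of length `n`. -/
def factors (u : ℕ → Bool) (n : ℕ) : Set (List Bool) := Set.range (win u n)

theorem Sys.card_factors (h : Sys u l x) {n : ℕ} (hn : 1 ≤ n) :
    (factors u n).Finite ∧ (factors u n).ncard + 2 ≤ 6 * n := by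
  classical
  rcases Nat.eq_or_lt_of_le hn with he | hlt
  · subst he
    have hsub : factors u 1 ⊆ (({[false], [true]} : Finset (List Bool)) : Set (List Bool)) := by
      rintro _ ⟨a, rfl⟩
      simp [win]
    refine ⟨(Finset.finite_toSet _).subset hsub, ?_⟩
    have := Set.ncard_le_ncard hsub (Finset.finite_toSet _)
    rw [Set.ncard_coe_finset] at this
    have h2 : ({[false], [true]} : Finset (List Bool)).card ≤ 2 := Finset.card_le_two
    omega
  · obtain ⟨k, hk1, hk2⟩ := h.exists_stage hn
    have hw := h.window hk1 hk2
    have hcard := h.card_US k (N := n - 1) (by omega) (by omega) (by omega)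
    let T : Finset (List Bool) :=
      (US u l x k (n - 1)).image (fun t => cmp false (fw u n t)) ∪
        (US u l x k (n - 1)).image (fun t => cmp true (fw u n t))
    have hsub : factors u n ⊆ (T : Set (List Bool)) := by
      rintro _ ⟨a, rfl⟩
      obtain ⟨t, ht, g, hg⟩ := hw a
      have h1 : win u n a = cmp g (fw u n t) := by
        rw [← hg, cmp_cmp]
        unfold cmp
        simp
      rw [h1]
      simp only [T, Finset.coe_union, Set.mem_union, Finset.mem_coe, Finset.mem_image]
      cases g
      · left; exact ⟨t, ht, rfl⟩
      · right; exact ⟨t, ht, rfl⟩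
    refine ⟨(Finset.finite_toSet _).subset hsub, ?_⟩
    have h3 := Set.ncard_le_ncard hsub (Finset.finite_toSet _)
    rw [Set.ncard_coe_finset] at h3
    have h4 : T.card ≤ (US u l x k (n - 1)).card + (US u l x k (n - 1)).card := by
      refine (Finset.card_union_le _ _).trans ?_
      exact Nat.add_le_add Finset.card_image_le Finset.card_image_le
    omega

end GPW
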