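import Mathlib

/-!
# Binary generalized pseudostandard words: definitions

Letters are `false` (for `0`) and `true` (for `1`); words are `List Bool`.
-/

namespace GPW

/-- The two involutory antimorphisms of binary words: the reversal `R` and the exchange
antimorphism `E`. -/
inductive Anti
  | R
  | E

/-- `R(a₁⋯aₘ) = aₘ⋯a₁` and `E(a₁⋯aₘ) = āₘ⋯ā₁`. -/
def Anti.app : Anti → List Bool → List Bool
  | .R, w => w.reverse
  | .E, w => w.reverse.map (fun b => !b)

/-- `w` is a `ϑ`-palindrome. -/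
def IsPal (ϑ : Anti) (w : List Bool) : Prop := ϑ.app w = w

/-- `v` is the `ϑ`-palindromic closure of `w`: the shortest `ϑ`-palindrome having `w` as a
prefix. -/
def IsClosure (ϑ : Anti) (w v : List Bool) : Prop :=
  IsPal ϑ v ∧ w <+: v ∧ ∀ v', IsPal ϑ v' → w <+: v' → v.length ≤ v'.length

/-- `u` is the binary generalized pseudostandard word `u(Δ, Θ)`:
there are words `w₀ = ε`, `w_{k+1} = (w_k δ_{k+1})^{ϑ_{k+1}}`, all of which are prefixes of `u`.
Here `δ_{k+1} = Δ k` and `ϑ_{k+1} = Θ k` for `k ≥ 0`. -/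
def IsGPW (Δ : ℕ → Bool) (Θ : ℕ → Anti) (u : ℕ → Bool) : Prop :=
  ∃ w : ℕ → List Bool, w 0 = [] ∧
    (∀ k, IsClosure (Θ k) (w k ++ [Δ k]) (w (k + 1))) ∧
    ∀ k, w k = List.ofFn (fun i : Fin (w k).length => u i)

/-- The set of factors of length `n` of the infinite word `u`. -/
def Fac (u : ℕ → Bool) (n : ℕ) : Set (List Bool) :=
  Set.range fun a : ℕ => List.ofFn fun i : Fin n => u (a + i)

/-- The factor complexity `C_u(n)`. -/
noncomputable def complexity (u : ℕ → Bool) (n : ℕ) : ℕ := (Fac u n).ncard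

end GPW
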