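import Pool.Agent.GPW.Defs
import Pool.Agent.GPW.Count

namespace GPW

def Anti.bit : Anti → Bool
  | .R => false
  | .E => true

lemma app_length (t : Anti) (w : List Bool) : (t.app w).length = w.length := by
  cases t <;> simp [Anti.app]

lemma app_getElem (t : Anti) (w : List Bool) (j : ℕ) (hj : j < (t.app w).length)
    (i : ℕ) (hij : i + j + 1 = w.length) :
    (t.app w)[j] = (w[i] ^^ t.bit) := by
  have e : w.length - 1 - j = i := by omega
  cases t
  · simp [Anti.app, Anti.bit, List.getElem_reverse, e]
  · simp [Anti.app, Anti.bit, List.getElem_reverse, e]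

lemma isPal_iff (t : Anti) (w : List Bool) :
    IsPal t w ↔ ∀ i j (hij : i + j + 1 = w.length), w[j] = (w[i] ^^ t.bit) := by
  constructor
  · intro h i j hij
    have h1 := app_getElem t w j (by rw [app_length]; omega) i hij
    rw [← h1]
    unfold IsPal at h
    simp only [h]
  · intro h
    unfold IsPal
    apply List.ext_getElem (app_length _ _)
    intro j h1 h2
    rw [app_getElem t w j h1 (w.length - 1 - j) (by omega)]
    exact (h (w.length - 1 - j) j (by omega)).symm

lemma app_append (t : Anti) (v w : List Bool) : t.app (v ++ w) = t.app w ++ t.app v := by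
  cases t <;> simp [Anti.app]

lemma app_app (t : Anti) (w : List Bool) : t.app (t.app w) = w := by
  cases t <;> simp [Anti.app, Function.comp_def]

lemma isPal_double (t : Anti) (w : List Bool) : IsPal t (w ++ t.app w) := by
  unfold IsPal
  rw [app_append, app_app]

lemma closure_exists (t : Anti) (w : List Bool) : ∃ v, IsClosure t w v := by
  classical
  have hex : ∃ n, ∃ v, IsPal t v ∧ w <+: v ∧ v.length = n :=
    ⟨_, w ++ t.app w, isPal_double t w, List.prefix_append _ _, rfl⟩
  obtain ⟨v, hv1, hv2, hv3⟩ := Nat.find_spec hex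
  refine ⟨v, hv1, hv2, ?_⟩
  intro v' h1 h2
  rw [hv3]
  exact Nat.find_min' hex ⟨v', h1, h2, rfl⟩

lemma closure_unique (t : Anti) (w v v' : List Bool) (h : IsClosure t w v)
    (h' : IsClosure t w v') : v = v' := by
  have hlen : v.length = v'.length :=
    le_antisymm (h.2.2 v' h'.1 h'.2.1) (h'.2.2 v h.1 h.2.1)
  have h2 : v.length ≤ 2 * w.length := by
    have := h.2.2 _ (isPal_double t w) (List.prefix_append _ _)
    rw [List.length_append, app_length] at this
    omega
  have hw : w.length ≤ v.length := h.2.1.length_le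
  have key : ∀ i (hi : i < w.length), v[i] = w[i] ∧ v'[i] = w[i] := by
    intro i hi
    exact ⟨(h.2.1.getElem hi).symm, (h'.2.1.getElem hi).symm⟩
  apply List.ext_getElem hlen
  intro i h1 h3
  rcases Nat.lt_or_ge i w.length with hc | hc
  · rw [(key i hc).1, (key i hc).2]
  · have hj : v.length - 1 - i < w.length := by omega
    have e1 := (isPal_iff t v).1 h.1 (v.length - 1 - i) i (by omega)
    have e2 := (isPal_iff t v').1 h'.1 (v.length - 1 - i) i (by omega)
    rw [e1, e2, (key _ hj).1, (key _ hj).2]

lemma toSys {Δ : ℕ → Bool} {Θ : ℕ → Anti} {u : ℕ → Bool} (h : IsGPW Δ Θ u) :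
    ∃ l x, Sys u l x := by
  obtain ⟨w, hw0, hw1, hw2⟩ := h
  have hget : ∀ k i (hi : i < (w k).length), (w k)[i] = u i := by
    intro k i hi
    have := hw2 k
    have h3 : (w k)[i] = (List.ofFn (fun i : Fin (w k).length => u i))[i]'(by simpa using hi) := by
      congr 1
    rw [h3]
    simp
  have hlen : ∀ k, (w k).length < (w (k + 1)).length := by
    intro k
    have := (hw1 k).2.1.length_le
    simp at this
    omega
  refine ⟨fun k => (w k).length, fun k => match k with
    | 0 => !(Θ 0).bit
    | (k + 1) => (Θ k).bit, ?_⟩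
  refine ⟨by simp [hw0], hlen, ?_, rfl, ?_⟩
  · intro k
    cases k with
    | zero =>
      intro i j hij
      simp [hw0] at hij
    | succ k =>
      intro i j hij
      have := (isPal_iff _ _).1 (hw1 k).1 i j hij
      rw [hget, hget] at this
      exact this
  · intro k T hT hcond
    have hT' : (w k).length + 1 ≤ T := hT
    have hdouble : (w (k + 1)).length ≤ 2 * (w k).length + 2 := by
      have := (hw1 k).2.2 _ (isPal_double (Θ k) (w k ++ [Δ k])) (List.prefix_append _ _)
      rw [List.length_append, app_length] at this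
      simp at this
      omega
    rcases Nat.lt_or_ge (2 * (w k).length + 2) T with hbig | hsmall
    · show (w (k + 1)).length ≤ T
      omega
    let v : List Bool := (List.range T).map
      (fun i => if i ≤ (w k).length then u i else (u (T - 1 - i) ^^ (Θ k).bit))
    have hvlen : v.length = T := by simp [v]
    have hvget : ∀ i (hi : i < v.length), v[i] =
        if i ≤ (w k).length then u i else (u (T - 1 - i) ^^ (Θ k).bit) := by
      intro i hi
      simp [v]
    have h1 : IsPal (Θ k) v := by
      rw [isPal_iff]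
      intro i j hij
      rw [hvlen] at hij
      rw [hvget, hvget]
      have e1 : T - 1 - i = j := by omega
      have e2 : T - 1 - j = i := by omega
      rw [e1, e2]
      by_cases hi : i ≤ (w k).length
      · by_cases hj : j ≤ (w k).length
        · rw [if_pos hi, if_pos hj]
          exact hcond i j hi hj hij
        · rw [if_pos hi, if_neg hj]
      · by_cases hj : j ≤ (w k).length
        · rw [if_neg hi, if_pos hj]
          cases u j <;> cases (Θ k).bit <;> rfl
        · omega
    have h2 : (w k ++ [Δ k]) <+: v := by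
      rw [List.prefix_iff_eq_take]
      apply List.ext_getElem
      · simp [hvlen]; omega
      · intro i hi1 hi2
        have hi3 : i < (w k).length + 1 := by simpa using hi1
        rw [List.getElem_take, hvget, if_pos (by omega)]
        have e1 := (hw1 k).2.1.getElem hi1
        rw [e1, hget]
    have := (hw1 k).2.2 v h1 h2
    rw [hvlen] at this
    exact this

lemma Fac_eq (u : ℕ → Bool) (n : ℕ) : Fac u n = factors u n := by
  unfold Fac factors win
  congr 1
  funext a
  apply List.ext_getElem
  · simp
  · intro i h1 h2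
    simp

/-- the recursively defined prefixes -/
noncomputable def prefixes (Δ : ℕ → Bool) (Θ : ℕ → Anti) : ℕ → List Bool
  | 0 => []
  | (k + 1) => (closure_exists (Θ k) (prefixes Δ Θ k ++ [Δ k])).choose

lemma prefixes_spec (Δ : ℕ → Bool) (Θ : ℕ → Anti) (k : ℕ) :
    IsClosure (Θ k) (prefixes Δ Θ k ++ [Δ k]) (prefixes Δ Θ (k + 1)) :=
  (closure_exists (Θ k) (prefixes Δ Θ k ++ [Δ k])).choose_spec

lemma eq_prefixes {Δ : ℕ → Bool} {Θ : ℕ → Anti} {w : ℕ → List Bool} (h0 : w 0 = [])
    (h1 : ∀ k, IsClosure (Θ k) (w k ++ [Δ k]) (w (k + 1))) (k : ℕ) : w k = prefixes Δ Θ k := by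
  induction k with
  | zero => rw [h0]; rfl
  | succ k ih =>
    apply closure_unique (Θ k) (w k ++ [Δ k]) _ _ (h1 k)
    rw [ih]
    exact prefixes_spec Δ Θ k

lemma prefixes_lt (Δ : ℕ → Bool) (Θ : ℕ → Anti) (k : ℕ) :
    (prefixes Δ Θ k).length < (prefixes Δ Θ (k + 1)).length := by
  have := (prefixes_spec Δ Θ k).2.1.length_le
  simp at this
  omega

lemma prefixes_len (Δ : ℕ → Bool) (Θ : ℕ → Anti) (k : ℕ) : k ≤ (prefixes Δ Θ k).length := by
  have : StrictMono (fun k => (prefixes Δ Θ k).length) :=
    strictMono_nat_of_lt_succ (prefixes_lt Δ Θ)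
  exact this.le_apply

lemma prefixes_mono (Δ : ℕ → Bool) (Θ : ℕ → Anti) {k m : ℕ} (h : k ≤ m) :
    prefixes Δ Θ k <+: prefixes Δ Θ m := by
  induction m, h using Nat.le_induction with
  | base => exact List.prefix_rfl
  | succ m _ ih =>
    exact ih.trans ((List.prefix_append _ _).trans (prefixes_spec Δ Θ m).2.1)

theorem existsUnique_gpw (Δ : ℕ → Bool) (Θ : ℕ → Anti) : ∃! u, IsGPW Δ Θ u := by
  have hl := prefixes_len Δ Θ
  refine ⟨fun i => (prefixes Δ Θ (i + 1))[i]'(by have := hl (i + 1); omega), ?_, ?_⟩
  · refine ⟨prefixes Δ Θ, rfl, prefixes_spec Δ Θ, ?_⟩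
    intro k
    apply List.ext_getElem
    · simp
    · intro i h1 h2
      simp only [List.getElem_ofFn]
      rcases Nat.le_total k (i + 1) with hc | hc
      · exact (prefixes_mono Δ Θ hc).getElem h1
      · exact ((prefixes_mono Δ Θ hc).getElem _).symm
  · rintro u ⟨w, hw0, hw1, hw2⟩
    funext i
    have hw : w (i + 1) = prefixes Δ Θ (i + 1) := eq_prefixes hw0 hw1 (i + 1)
    have h3 := hw2 (i + 1)
    rw [hw] at h3
    have hi : i < (prefixes Δ Θ (i + 1)).length := by have := hl (i + 1); omega
    have h4 : (prefixes Δ Θ (i + 1))[i] =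
        (List.ofFn (fun i : Fin (prefixes Δ Θ (i + 1)).length => u i))[i]'(by simpa using hi) := by
      congr 1
    rw [h4]
    simp

end GPW
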